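import Pool.Agent.W682.TW.Stm

/-!
# TW-LIN: linearity of the state map and its values on rank-one matrices
-/

set_option autoImplicit false

open scoped BigOperators

namespace Pool.Agent.W395.TW.Lin

open Pool.Agent.W682.TW

variable {n m : ℕ}

lemma Gc_lin (e : Ix n ≃ Fin m) (F X : Mt m) (t : ℝ) (ι : Ix n) :
    Gc e (F + t • X) ι = Gc e F ι + t * Gc e X ι := by
  simp only [Gc, ip, col, Matrix.add_apply, Matrix.smul_apply, smul_eq_mul]
  ring

lemma Oc_lin (e : Ix n ≃ Fin m) (F X : Mt m) (t : ℝ) (ι : Ix n) :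
    Oc e (F + t • X) ι = Oc e F ι + t * Oc e X ι := by
  simp only [Oc, dt, col, Matrix.add_apply, Matrix.smul_apply, smul_eq_mul]
  ring

lemma cont_entry (i : Fin 2) (j : Fin m) : Continuous fun F : Mt m => F i j :=
  continuous_id.matrix_elem i j

lemma cont_Gc (e : Ix n ≃ Fin m) (ι : Ix n) : Continuous fun F : Mt m => Gc e F ι := by
  unfold Gc ip col
  exact ((continuous_const.mul (cont_entry 0 (e ι))).add
    (continuous_const.mul (cont_entry 1 (e ι)))).div_const _

lemma cont_Oc (e : Ix n ≃ Fin m) (ι : Ix n) : Continuous fun F : Mt m => Oc e F ι := by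
  unfold Oc dt col
  exact ((continuous_const.mul (cont_entry 1 (e ι))).sub
    (continuous_const.mul (cont_entry 0 (e ι)))).div_const _

lemma sum_Ix {A : Type} [AddCommMonoid A] (f : Ix n → A) : ∑ ι : Ix n, f ι =
    ∑ z : Unit ⊕ Fin (2 * n), f (.inl z) +
      (∑ i : Fin n, f (.inr (.inl i)) + ∑ j : Fin n, f (.inr (.inr j))) := by
  rw [Fintype.sum_sum_type]
  congr 1
  rw [Fintype.sum_sum_type]

theorem main : S_LIN := by
  intro n m e
  refine ⟨?_, fun F X t ι => Oc_lin e F X t ι, ?_, ?_, ?_, ?_⟩
  · intro F X t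
    refine Prod.ext ?_ (Prod.ext ?_ ?_)
    · simp only [st, Gc_lin, Finset.sum_add_distrib, ← Finset.mul_sum, Prod.fst_add, Prod.smul_fst,
        smul_eq_mul]
      ring
    · funext i
      simp only [st, Gc_lin, Prod.snd_add, Prod.fst_add, Prod.smul_snd, Prod.smul_fst, Pi.add_apply,
        Pi.smul_apply, smul_eq_mul]
    · funext i
      simp only [st, Gc_lin, Prod.snd_add, Prod.smul_snd, Pi.add_apply,
        Pi.smul_apply, smul_eq_mul]
  · intro X
    generalize hc : (fun ι => Gc e X ι) = c
    have hc' : ∀ ι, Gc e X ι = c ι := fun ι => by rw [← hc]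
    simp only [st, hc']
    refine Prod.ext ?_ (Prod.ext ?_ ?_)
    · rw [Prod.fst_sum, sum_Ix]
      simp only [ax, Prod.smul_fst, smul_eq_mul, mul_one, mul_zero, Finset.sum_const_zero, add_zero]
    · funext i
      rw [Prod.snd_sum, Prod.fst_sum, Finset.sum_apply, sum_Ix]
      simp only [ax, Prod.smul_fst, Prod.smul_snd, smul_zero, Pi.zero_apply,
        Finset.sum_const_zero, add_zero, zero_add, Pi.smul_apply, smul_eq_mul, Pi.single_apply,
        mul_ite, mul_one, mul_zero]
      rw [Finset.sum_ite_eq, if_pos (Finset.mem_univ _)]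
    · funext j
      rw [Prod.snd_sum, Prod.snd_sum, Finset.sum_apply, sum_Ix]
      simp only [ax, Prod.smul_snd, smul_zero, Pi.zero_apply,
        Finset.sum_const_zero, zero_add, Pi.smul_apply, smul_eq_mul, Pi.single_apply,
        mul_ite, mul_one, mul_zero]
      rw [Finset.sum_ite_eq, if_pos (Finset.mem_univ _)]
  · intro v β ι
    constructor
    · simp only [Gc, ip, col, Matrix.vecMulVec_apply]
      ring
    · simp only [Oc, dt, ip, col, Matrix.vecMulVec_apply]
      ring
  · unfold st
    refine Continuous.prodMk ?_ (Continuous.prodMk ?_ ?_)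
    · exact (continuous_finsetSum _ fun z _ => cont_Gc e _).add
        (continuous_finsetSum _ fun i _ => cont_Gc e _)
    · exact continuous_pi fun i => cont_Gc e _
    · exact continuous_pi fun j => cont_Gc e _
  · unfold SO
    exact continuous_finsetSum _ fun ι _ => (cont_Oc e ι).pow 2

end Pool.Agent.W395.TW.Lin
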